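import Pool.Agent.H10.IEP.Targets
import Pool.Agent.H81.HD.RB

/-! Board iep (MP_e37c09_lc), row NQ: the image of a function with many values. -/

open Ordinal Cardinal Order Set
open scoped ZFSet

universe u

namespace Pool.Agent.H42.IEP

open _root_.HD Pool.Agent.H10.IEP

theorem fn_iff (G : ZFSet.{u}) : Fn G ↔ ¬ Pool.Agent.H81.HD.RB.NF G := by
  constructor
  · rintro h ⟨b, i, i', h1, h2, h3⟩
    exact h3 (h b i i' h1 h2)
  · intro h s x y h1 h2
    by_contra h3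
    exact h ⟨s, x, y, h1, h2, h3⟩

theorem pf_NQ (hXD : T_XD.{u}) (hLP : T_LP.{u}) : T_NQ.{u} := by
  intro δ η θ j he μ hμ K hK hKη F hF hfn hph
  obtain ⟨K', hK', hJK⟩ := hXD δ η θ j he K hK hKη
  have hδη : δ < η := he.dlt
  have hμη : μ < η := hμ.trans hδη
  refine ⟨?_, K', hK', hJK, ?_⟩
  · have h1 := (he.trl (Pool.Agent.H81.HD.RB.loc_NF 0).not [F] (by simpa using hF)).1 (by
      show ¬ Pool.Agent.H81.HD.RB.NF F
      exact (fn_iff F).1 hfn)
    exact (fn_iff (j F)).2 h1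
  · have hl : Loc.{u} (fun v => ∀ i ∈ v 3, (v 0).IsOrdinal ∧ (v 1).IsOrdinal ∧ i.IsOrdinal ∧
        Ph (v 0).rank (v 1).rank (v 2) i.rank) := by
      refine Loc.allMem (R := fun i v => (v 0).IsOrdinal ∧ (v 1).IsOrdinal ∧ i.IsOrdinal ∧
        Ph (v 0).rank (v 1).rank (v 2) i.rank) 3 ?_
      exact (Loc.ren hLP (fun n => if n = 0 then 1 else if n = 1 then 2 else if n = 2 then 3
        else 0)).congr fun v => by simp
    have h1 := (he.trl hl [μ.toZFSet, K.ord.toZFSet, F, δ.toZFSet] (by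
      simp only [List.mem_cons, List.not_mem_nil, or_false, forall_eq_or_imp, forall_eq]
      exact ⟨Gd.ord.2 hμη, Gd.ord.2 hKη, hF, Gd.ord.2 hδη⟩)).1 (by
        show ∀ i ∈ δ.toZFSet, μ.toZFSet.IsOrdinal ∧ K.ord.toZFSet.IsOrdinal ∧ i.IsOrdinal ∧
          Ph μ.toZFSet.rank K.ord.toZFSet.rank F i.rank
        intro i hi
        obtain ⟨i, hi2, rfl⟩ := mem_toZFSet_iff.1 hi
        refine ⟨ZFSet.isOrdinal_toZFSet _, ZFSet.isOrdinal_toZFSet _,
          ZFSet.isOrdinal_toZFSet _, ?_⟩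
        rw [rank_toZFSet, rank_toZFSet, rank_toZFSet]
        exact hph i hi2)
    have h2 : ∀ i ∈ j δ.toZFSet, (j μ.toZFSet).IsOrdinal ∧ (j K.ord.toZFSet).IsOrdinal ∧
        i.IsOrdinal ∧ Ph (j μ.toZFSet).rank (j K.ord.toZFSet).rank (j F) i.rank := h1
    rw [he.fix _ hμ, he.ord hKη, he.ord hδη, hJK, rank_toZFSet, rank_toZFSet] at h2
    intro i hi
    have h3 := (h2 _ (toZFSet_mem_toZFSet_iff.2 hi)).2.2.2
    rwa [rank_toZFSet] at h3

end Pool.Agent.H42.IEP
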