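import Pool.Agent.H10.IEP.Targets

/-! Board iep (MP_e37c09_lc), row SQ: the image of a sequence. -/

open Ordinal Cardinal Order Set
open scoped ZFSet

universe u

namespace Pool.Agent.H42.IEP

open _root_.HD Pool.Agent.H10.IEP

theorem pf_SQ : T_SQ.{u} := by
  intro δ η θ j he μ hμ κ hκ g hg
  have hμη : μ < η := hμ.trans he.dlt
  have hsub : sq μ g ⊆ ZFSet.prod μ.toZFSet κ.toZFSet := by
    intro p hp
    obtain ⟨a, ha, rfl⟩ := mem_sq.1 hp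
    rw [ZFSet.pair_mem_prod, toZFSet_mem_toZFSet_iff, toZFSet_mem_toZFSet_iff]
    exact ⟨ha, hg a ha⟩
  have hη : sq μ g ∈ V_ η := mem_V_of_sub hsub (he.gd.prod (Gd.ord.2 hμη) (Gd.ord.2 hκ))
  have hfun : ZFSet.IsFunc μ.toZFSet κ.toZFSet (sq μ g) := by
    refine ⟨hsub, fun z hz => ?_⟩
    obtain ⟨a, ha, rfl⟩ := mem_toZFSet_iff.1 hz
    refine ⟨(g a).toZFSet, mem_sq.2 ⟨a, ha, rfl⟩, fun y hy => ?_⟩
    obtain ⟨a', -, h⟩ := mem_sq.1 hy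
    obtain ⟨h1, h2⟩ := ZFSet.pair_injective h
    rw [h2, toZFSet_injective h1]
  have h2 : ZFSet.IsFunc μ.toZFSet (j κ.toZFSet) (j (sq μ g)) := by
    have h1 := (he.trl (loc_func 0 1 2) [μ.toZFSet, κ.toZFSet, sq μ g] (by
      simp only [List.mem_cons, List.not_mem_nil, or_false, forall_eq_or_imp, forall_eq]
      exact ⟨Gd.ord.2 hμη, Gd.ord.2 hκ, hη⟩)).1 (by simpa using hfun)
    have h2 : ZFSet.IsFunc (j μ.toZFSet) (j κ.toZFSet) (j (sq μ g)) := by simpa using h1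
    rwa [he.fix μ hμ] at h2
  have h3 : ∀ a < μ, ZFSet.pair a.toZFSet (Jo j (g a)).toZFSet ∈ j (sq μ g) := by
    intro a ha
    have h6 := (he.opair (ha.trans hμη) ((hg a ha).trans hκ) hη).1 (mem_sq.2 ⟨a, ha, rfl⟩)
    rwa [he.Jo_fix (ha.trans hμ)] at h6
  refine ⟨hη, ?_⟩
  ext p
  constructor
  · intro hp
    obtain ⟨x, hx, y, hy, rfl⟩ := ZFSet.mem_prod.1 (h2.1 hp)
    obtain ⟨a, ha, rfl⟩ := mem_toZFSet_iff.1 hx
    rw [Pool.Agent.H10.IEP.mem_sq]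
    refine ⟨a, ha, ?_⟩
    obtain ⟨w, hw, hu⟩ := h2.2 a.toZFSet hx
    rw [hu y hp, hu _ (h3 a ha)]
  · intro hp
    obtain ⟨a, ha, rfl⟩ := mem_sq.1 hp
    exact h3 a ha

end Pool.Agent.H42.IEP
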